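import Pool.Agent.U587.PW.Two

/-!
# Orbits sampled along `[a P(n)]`: all multiples `a` outside a set of Hausdorff dimension less than one

Let `Y` be a locally compact second countable Hausdorff space (for example `G / Γ`), `μ` a probability measure on `Y`,
and let `y m`, `m` in `ℤ` (for example `y m = u(m) x`), be equidistributed with respect to `μ` in both directions of
time. Let `d ≥ 1` and let `S` be a countable set of real polynomials of degrees in `[1, d]`, for example all the integer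
ones. There is ONE set `D` of real numbers, of Hausdorff dimension at most `1 - 1 / (2^(4 d + 6) d) < 1`, such that for
ALL real `a` outside of `D` and all `P` in `S` the sequence `y [a P(n)]`, `n = 1, 2, ...`, is equidistributed with
respect to `μ`.

The starting result `AlmostEveryPolynomial` has almost every `a`.

Proof. For a function `F` which is bounded and Lipschitz the mean square over `a ∈ [1, 2]` of the difference of the
averages of `F(a P(n))` over `N / 2 < n ≤ N` and of `F(a P(v))` over `N / 2 < v ≤ N` is `O(N^(-δ))`,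
`δ = 2^(-4 d - 6)` (van der Corput's estimate for the sums with the phases `t log P(n)`, and Parseval in the variable
`log a`, from the starting library, here with explicit exponents). It is Lipschitz in `a` with constant `O(N^d)`, and a
covering argument along `N = (l + 1)^(k q)`, `k = 2^(4 d + 6)`, `q → ∞`, gives the dimension. This is applied to the
averages of the step function `t ↦ f(y [t])` over short intervals `[t, t + h]`, and to a bump function around the
integers, which controls the error. A countable set of test functions `f` is enough.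
-/

set_option autoImplicit false

namespace Pool.Agent.Results.MP_a6827b_an.ExceptionalMultiples

open Filter Topology MeasureTheory BoundedContinuousFunction

/-- `z 1, z 2, ...` is equidistributed with respect to `μ` -/
def Equidistributed {Y : Type} [TopologicalSpace Y] [MeasurableSpace Y] (μ : Measure Y) (z : ℕ → Y) : Prop :=
  ∀ f : Y → ℂ, Continuous f → HasCompactSupport f →
    Tendsto (fun N : ℕ => (1 / (N : ℂ)) * ∑ n ∈ Finset.Icc 1 N, f (z n)) atTop (𝓝 (∫ x, f x ∂μ))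

theorem equi_of_dense {Y : Type} [TopologicalSpace Y] [T2Space Y] [LocallyCompactSpace Y]
    [SecondCountableTopology Y] [MeasurableSpace Y] [BorelSpace Y] (μ : Measure Y) [IsProbabilityMeasure μ]
    (z : ℕ → Y) (D : Set (Y →ᵇ ℂ)) (hSD : {f : Y →ᵇ ℂ | HasCompactSupport f} ⊆ closure D)
    (hD : ∀ g ∈ D, Tendsto (fun N : ℕ => (1 / (N : ℂ)) * ∑ n ∈ Finset.Icc 1 N, g (z n)) atTop
      (𝓝 (∫ x, g x ∂μ))) : Equidistributed μ z := by
  intro f hf hfs
  obtain ⟨C, hC⟩ := hfs.exists_bound_of_continuous hf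
  obtain ⟨F, hF⟩ : ∃ F : Y →ᵇ ℂ, F = BoundedContinuousFunction.ofNormedAddCommGroup f hf C hC := ⟨_, rfl⟩
  have hFf : ∀ x, F x = f x := fun x => by rw [hF]; rfl
  have hFS : F ∈ {f : Y →ᵇ ℂ | HasCompactSupport f} := by
    have : (F : Y → ℂ) = f := funext hFf
    change HasCompactSupport (F : Y → ℂ)
    rw [this]
    exact hfs
  rw [Metric.tendsto_atTop]
  intro ε hε
  obtain ⟨g, hg, hfg⟩ := Metric.mem_closure_iff.1 (hSD hFS) (ε / 4) (by positivity)
  rw [dist_eq_norm] at hfg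
  obtain ⟨N0, hN0⟩ := (Metric.tendsto_atTop.1 (hD g hg)) (ε / 4) (by positivity)
  refine ⟨max N0 1, fun N hN => ?_⟩
  have h2 := hN0 N ((le_max_left _ _).trans hN)
  have hN1 : (0 : ℝ) < N := by exact_mod_cast (le_max_right _ _).trans hN
  rw [dist_eq_norm] at h2 ⊢
  have h3 : ∀ x, ‖f x - g x‖ ≤ ε / 4 := fun x => by
    have h4 : ‖(F - g) x‖ ≤ ‖F - g‖ := (F - g).norm_coe_le_norm x
    rw [BoundedContinuousFunction.coe_sub, Pi.sub_apply, hFf] at h4
    exact h4.trans hfg.le
  have hfi : Integrable f μ := by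
    have : (F : Y → ℂ) = f := funext hFf
    rw [← this]
    exact F.integrable μ
  have e1 : (1 / (N : ℂ)) * ∑ n ∈ Finset.Icc 1 N, f (z n) - ∫ x, f x ∂μ =
      ((1 / (N : ℂ)) * ∑ n ∈ Finset.Icc 1 N, g (z n) - ∫ x, g x ∂μ) +
        ((1 / (N : ℂ)) * ∑ n ∈ Finset.Icc 1 N, (f (z n) - g (z n)) - ∫ x, (f x - g x) ∂μ) := by
    rw [integral_sub hfi (g.integrable μ), Finset.sum_sub_distrib]
    ring
  have h5 : ‖(1 / (N : ℂ)) * ∑ n ∈ Finset.Icc 1 N, (f (z n) - g (z n))‖ ≤ ε / 4 := by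
    rw [norm_mul, norm_div, norm_one, Complex.norm_natCast]
    have h6 : ‖∑ n ∈ Finset.Icc 1 N, (f (z n) - g (z n))‖ ≤ N * (ε / 4) := by
      refine (norm_sum_le _ _).trans ((Finset.sum_le_sum fun n _ => h3 _).trans ?_)
      simp
    calc 1 / (N : ℝ) * ‖∑ n ∈ Finset.Icc 1 N, (f (z n) - g (z n))‖ ≤ 1 / (N : ℝ) * (N * (ε / 4)) := by gcongr
      _ = ε / 4 := by field_simp
  have h6 : ‖∫ x, (f x - g x) ∂μ‖ ≤ ε / 4 := by
    have := norm_integral_le_of_norm_le_const (μ := μ) (f := fun x => f x - g x) (ae_of_all _ h3)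
    simpa using this
  rw [e1]
  have h7 := norm_add_le ((1 / (N : ℂ)) * ∑ n ∈ Finset.Icc 1 N, g (z n) - ∫ x, g x ∂μ)
    ((1 / (N : ℂ)) * ∑ n ∈ Finset.Icc 1 N, (f (z n) - g (z n)) - ∫ x, (f x - g x) ∂μ)
  have h8 := norm_sub_le ((1 / (N : ℂ)) * ∑ n ∈ Finset.Icc 1 N, (f (z n) - g (z n)))
    (∫ x, (f x - g x) ∂μ)
  linarith

lemma dk_eq (d : ℕ) : Pool.Agent.U587.PT.dk (Pool.Agent.U587.PT.kD d) d =
    ENNReal.ofReal (1 - 1 / (2 ^ (4 * d + 6) * (d : ℝ))) := by
  unfold Pool.Agent.U587.PT.dk Pool.Agent.U587.PT.kD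
  congr 2
  push_cast
  rfl

/-- **Sampling along `[a P(n)]` for all real `a` outside a set of dimension at most `1 - 1 / (2^(4 d + 6) d)`, and all
`P` in a countable set of real polynomials of degrees in `[1, d]`** -/
theorem result {Y : Type} [TopologicalSpace Y] [T2Space Y] [LocallyCompactSpace Y]
    [SecondCountableTopology Y] [MeasurableSpace Y] [BorelSpace Y] (μ : Measure Y) [IsProbabilityMeasure μ]
    (y : ℤ → Y) (hpos : Equidistributed μ fun m : ℕ => y m) (hneg : Equidistributed μ fun m : ℕ => y (-m)) (d : ℕ)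
    (S : Set (Polynomial ℝ)) (hS : S.Countable) (hSd : ∀ P ∈ S, 0 < P.natDegree ∧ P.natDegree ≤ d) :
    ∃ D : Set ℝ, dimH D ≤ ENNReal.ofReal (1 - 1 / (2 ^ (4 * d + 6) * (d : ℝ))) ∧
      ∀ a : ℝ, a ∉ D → ∀ P ∈ S, Equidistributed μ fun n : ℕ => y ⌊a * P.eval (n : ℝ)⌋ := by
  obtain ⟨T, hTS, hTc, hST⟩ :
      ∃ T ⊆ {f : Y →ᵇ ℂ | HasCompactSupport f}, T.Countable ∧ {f : Y →ᵇ ℂ | HasCompactSupport f} ⊆ closure T := by
    obtain ⟨T, hTS, hT, hST⟩ := (Pool.Agent.Y957.VK.sep_cs Y).exists_countable_dense_subset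
    exact ⟨T, hTS, hT, hST⟩
  have hex : ∀ (g : T) (P : S), ∃ D : Set ℝ, dimH D ≤ ENNReal.ofReal (1 - 1 / (2 ^ (4 * d + 6) * (d : ℝ))) ∧
      ∀ a : ℝ, a ∉ D → Tendsto (fun N : ℕ => (1 / (N : ℂ)) *
      ∑ n ∈ Finset.Icc 1 N, g.1 (y ⌊a * P.1.eval (n : ℝ)⌋)) atTop (𝓝 (∫ x, g.1 x ∂μ)) := by
    rintro ⟨g, hg⟩ ⟨P, hP⟩
    obtain ⟨D, hD, h⟩ := Pool.Agent.U587.PW.two (hSd P hP).1 (hSd P hP).2
      (c := fun m => g (y m)) (C := ‖g‖) (fun m => g.norm_coe_le_norm _)
      (hpos g g.continuous (hTS hg)) (hneg g g.continuous (hTS hg))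
    rw [dk_eq] at hD
    exact ⟨D, hD, h⟩
  choose D hD hDa using hex
  have := hTc.to_subtype
  have := hS.to_subtype
  refine ⟨⋃ g, ⋃ P, D g P, ?_, fun a haD P hP => ?_⟩
  · rw [dimH_iUnion]
    refine iSup_le fun g => ?_
    rw [dimH_iUnion]
    exact iSup_le fun P => hD g P
  · simp only [Set.mem_iUnion, not_exists] at haD
    exact equi_of_dense μ _ T hST fun g hg => hDa ⟨g, hg⟩ ⟨P, hP⟩ a (haD _ _)

end Pool.Agent.Results.MP_a6827b_an.ExceptionalMultiples
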